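import Pool.Agent.H42.Q4.Asm3

/-!
For every nonnegative polynomial `f` of degree at most four in three real variables the heat
evolution of `f` is a sum of squares of polynomials for all large times.
-/

namespace Pool.Agent.Results.MP_ae0293_ag.HeatSOS

open MvPolynomial Pool.Agent.H42.Heat

theorem result (f : MvPolynomial (Fin 3) ℝ) (hdeg : f.totalDegree ≤ 4)
    (hpos : ∀ x : Fin 3 → ℝ, 0 ≤ eval x f) :
    ∃ T : ℝ, 0 < T ∧ ∀ t : ℝ, T ≤ t → IsSumSq (heat f t) :=
  Pool.Agent.H42.Q4.main hdeg hpos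

end Pool.Agent.Results.MP_ae0293_ag.HeatSOS
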